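import Pool.Agent.Lib.MP_52d52b_nt.Arith

/-!
# MP_52d52b_nt: the part of `A` with MC-radius of bounded denominator has density zero
-/

open Filter Topology

namespace Pool.Agent.Results.MP_52d52b_nt.BoundedDenominator

open Pool.Agent.Lib.MP_52d52b_nt

theorem mem_bounded_iff {k n : ℕ} (hn : n ∈ A) : n ∈ bounded k ↔
    ∃ (c : ℝ × ℝ) (r : ℝ), IsMCCircle n c r ∧ ∃ m : ℤ, (k : ℝ) * r ^ 2 = m := by
  constructor
  · rintro ⟨c, r, h1, -, h2⟩
    exact ⟨c, r, h1, h2⟩
  · rintro ⟨c, r, h1, m, h2⟩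
    obtain ⟨c₀, r₀, h3, h4, -⟩ := hn
    have h5 : r₀ = r := le_antisymm (h1.2 c₀ r₀ h3.1) (h3.2 c r h1.1)
    exact ⟨c₀, r₀, h3, h4.le, m, by rw [h5, h2]⟩

/-- For every `k ≥ 1` the numbers with an MC-circle through at most four lattice points and with
`k` times the square of the MC-radius an integer form a set of natural density `0`. So the upper
density of `A` does not change when the members of `A` with this property are removed. -/
theorem result (k : ℕ) (hk : 0 < k) :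
    Tendsto (fun N : ℕ => ((bounded k ∩ {n | n < N}).ncard : ℝ) / N) atTop (𝓝 0) ∧
      upperDensity A = upperDensity {n | n ∈ A ∧ ∀ (c : ℝ × ℝ) (r : ℝ),
        IsMCCircle n c r → ¬ ∃ m : ℤ, (k : ℝ) * r ^ 2 = m} := by
  refine ⟨bounded_density hk, ?_⟩
  rw [upperDensity_sdiff (S := A) (bounded_density hk)]
  congr 1
  ext n
  constructor
  · rintro ⟨h1, h2⟩
    exact ⟨h1, fun c r h3 h4 => h2 ((mem_bounded_iff h1).mpr ⟨c, r, h3, h4⟩)⟩
  · rintro ⟨h1, h2⟩
    refine ⟨h1, fun h3 => ?_⟩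
    obtain ⟨c, r, h4, h5⟩ := (mem_bounded_iff h1).mp h3
    exact h2 c r h4 h5

end Pool.Agent.Results.MP_52d52b_nt.BoundedDenominator
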