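import Pool.Agent.Lib.MP_52d52b_nt.Compact

/-!
# MP_52d52b_nt: MC numbers after a number with few lattice points on its MC-circle
-/

namespace Pool.Agent.Results.MP_52d52b_nt.NextCirclable

open Pool.Agent.Lib.MP_52d52b_nt

/-- If some MC-circle of `n`, of radius `r`, passes through at most `2 * k + 2` lattice points, then
one of `n + 1, …, n + k` is an MC number with MC-radius larger than `r`. For `k = 1`: a member of
`A` is followed by an MC number. -/
theorem result (n k : ℕ) (c : ℝ × ℝ) (r : ℝ) (h : IsMCCircle n c r)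
    (hk : (onCircle c r).encard ≤ 2 * k + 2) :
    ∃ m : ℕ, n < m ∧ m ≤ n + k ∧
      ∃ (c' : ℝ × ℝ) (r' : ℝ), IsMCCircle m c' r' ∧ r < r' := by
  refine h.next ?_
  rw [← (onCircle_finite c r).cast_ncard_eq] at hk
  exact_mod_cast hk

end Pool.Agent.Results.MP_52d52b_nt.NextCirclable
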